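import Pool.Agent.Helper13.LT.Defs

/-!
# The coset complex of an Artin group of large type
-/

set_option autoImplicit false

namespace Pool.Agent.Helper26.LT

open Relation Pool.Agent.Helper29.BA Pool.Agent.Helper29.PA Pool.Agent.Helper3.FJ
  Pool.Agent.Helper13.LT

variable {S : Type} (M : CoxeterMatrix S)

/-- The generators. -/
def gen (s : S) : ArtinGroup M := PresentedGroup.of s

/-- The types of the vertices of the complex: sets of at most two generators, or of a generator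
and the dummy generator `none`. -/
def Typ : Type :=
  {T : Finset (Option S) // T.card ≤ 2 ∧ ∀ s t, some s ∈ T → some t ∈ T → M s t ≠ 0}

/-- The parabolic subgroups. -/
def Par (T : Typ M) : Subgroup (ArtinGroup M) :=
  Subgroup.closure {a | ∃ s, some s ∈ T.1 ∧ a = gen M s}

/-- Cosets of parabolic subgroups. -/
def rel : Setoid (Typ M × ArtinGroup M) where
  r a b := a.1 = b.1 ∧ a.2⁻¹ * b.2 ∈ Par M a.1
  iseqv :=
    { refl := fun a => ⟨rfl, by rw [inv_mul_cancel]; exact one_mem _⟩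
      symm := by
        rintro ⟨T, a⟩ ⟨T', b⟩ ⟨h, h1⟩
        obtain rfl : T = T' := h
        refine ⟨rfl, ?_⟩
        have := inv_mem h1
        rwa [mul_inv_rev, inv_inv] at this
      trans := by
        rintro ⟨T, a⟩ ⟨T', b⟩ ⟨T'', c⟩ ⟨h, h1⟩ ⟨h', h2⟩
        obtain rfl : T = T' := h
        obtain rfl : T = T'' := h'
        refine ⟨rfl, ?_⟩
        have := mul_mem h1 h2
        change a⁻¹ * b * (b⁻¹ * c) ∈ _ at this
        rwa [mul_assoc, mul_inv_cancel_left] at this }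

/-- The vertices: cosets of the parabolic subgroups. -/
def Vx : Type := Quotient (rel M)

variable {M}

/-- The coset `a (Par T)`. -/
def mk (T : Typ M) (a : ArtinGroup M) : Vx M := Quotient.mk (rel M) (T, a)

theorem mk_eq {T T' : Typ M} {a b : ArtinGroup M} :
    mk T a = mk T' b ↔ T = T' ∧ a⁻¹ * b ∈ Par M T := by
  let _ := rel M
  exact ⟨fun h => Quotient.exact h, fun h => Quotient.sound h⟩

theorem exists_mk (v : Vx M) : ∃ T a, v = mk T a := by
  induction v using Quotient.ind with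
  | _ a => exact ⟨a.1, a.2, rfl⟩

/-- The rank of a vertex. -/
def rk (v : Vx M) : ℕ :=
  Quotient.lift (s := rel M) (fun a : Typ M × ArtinGroup M => a.1.1.card)
    (fun _ _ h => by rw [h.1]) v

/-- The type of a vertex. -/
def ty (v : Vx M) : Typ M :=
  Quotient.lift (s := rel M) (fun a : Typ M × ArtinGroup M => a.1) (fun _ _ h => h.1) v

@[simp] theorem rk_mk (T : Typ M) (a : ArtinGroup M) : rk (mk T a) = T.1.card := rfl

@[simp] theorem ty_mk (T : Typ M) (a : ArtinGroup M) : ty (mk T a) = T := rfl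

theorem rk_eq (v : Vx M) : rk v = (ty v).1.card := by
  obtain ⟨T, a, rfl⟩ := exists_mk v
  rfl

theorem mk_ty {T : Typ M} {a : ArtinGroup M} {v : Vx M} (h : v = mk T a) : v = mk (ty v) a := by
  subst h
  rfl

instance : MulAction (ArtinGroup M) (Vx M) where
  smul g v := Quotient.lift (s := rel M) (fun a : Typ M × ArtinGroup M => mk a.1 (g * a.2))
    (fun a b h => by
      rw [mk_eq]
      refine ⟨h.1, ?_⟩
      have := h.2
      rwa [mul_inv_rev, mul_assoc, inv_mul_cancel_left]) v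
  one_smul v := by
    obtain ⟨T, a, rfl⟩ := exists_mk v
    change mk T (1 * a) = mk T a
    rw [one_mul]
  mul_smul g h v := by
    obtain ⟨T, a, rfl⟩ := exists_mk v
    change mk T (g * h * a) = mk T (g * (h * a))
    rw [mul_assoc]

@[simp] theorem smul_mk (g : ArtinGroup M) (T : Typ M) (a : ArtinGroup M) :
    g • mk T a = mk T (g * a) := rfl

theorem rk_smul (g : ArtinGroup M) (v : Vx M) : rk (g • v) = rk v := by
  obtain ⟨T, a, rfl⟩ := exists_mk v
  rfl

theorem ty_smul (g : ArtinGroup M) (v : Vx M) : ty (g • v) = ty v := by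
  obtain ⟨T, a, rfl⟩ := exists_mk v
  rfl

/-- Comparable types. -/
def Cmp (T T' : Typ M) : Prop := T.1 ⊂ T'.1 ∨ T'.1 ⊂ T.1

theorem Cmp.symm {T T' : Typ M} (h : Cmp T T') : Cmp T' T := Or.symm h

theorem Cmp.ne {T T' : Typ M} (h : Cmp T T') : T.1.card ≠ T'.1.card := by
  rcases h with h | h
  · exact (Finset.card_lt_card h).ne
  · exact (Finset.card_lt_card h).ne'

variable (M)

/-- The coset complex. -/
def cx : Cpx (Vx M) where
  adj u v := Cmp (ty u) (ty v) ∧ ∃ a, u = mk (ty u) a ∧ v = mk (ty v) a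
  tri u v w := (Cmp (ty u) (ty v) ∧ Cmp (ty v) (ty w) ∧ Cmp (ty w) (ty u)) ∧
    ∃ a, u = mk (ty u) a ∧ v = mk (ty v) a ∧ w = mk (ty w) a
  adj_symm := fun _ _ ⟨h, a, h1, h2⟩ => ⟨h.symm, a, h2, h1⟩
  adj_irrefl := fun _ h => h.1.ne rfl
  tri_rot := fun _ _ _ ⟨⟨h1, h2, h3⟩, a, e1, e2, e3⟩ => ⟨⟨h2, h3, h1⟩, a, e2, e3, e1⟩
  tri_flip := fun _ _ _ ⟨⟨h1, h2, h3⟩, a, e1, e2, e3⟩ =>
    ⟨⟨h1.symm, h3.symm, h2.symm⟩, a, e2, e1, e3⟩
  tri_adj := fun _ _ _ ⟨⟨h1, _, _⟩, a, e1, e2, _⟩ => ⟨h1, a, e1, e2⟩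

variable {M}

theorem adj_mk {T T' : Typ M} (h : Cmp T T') (a : ArtinGroup M) :
    (cx M).adj (mk T a) (mk T' a) := ⟨h, a, rfl, rfl⟩

theorem tri_mk {T T' T'' : Typ M} (h : Cmp T T') (h' : Cmp T' T'') (h'' : Cmp T'' T)
    (a : ArtinGroup M) : (cx M).tri (mk T a) (mk T' a) (mk T'' a) :=
  ⟨⟨h, h', h''⟩, a, rfl, rfl, rfl⟩

theorem smul_mk_ty {u : Vx M} {a : ArtinGroup M} (g : ArtinGroup M) (h : u = mk (ty u) a) :
    g • u = mk (ty (g • u)) (g * a) := by
  conv_lhs => rw [h]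
  rw [ty_smul]
  rfl

theorem acts : (cx M).Acts (ArtinGroup M) := by
  refine ⟨fun g u v h => ?_, fun g u v w h => ?_⟩
  · obtain ⟨h1, a, e1, e2⟩ := h
    refine ⟨?_, g * a, smul_mk_ty g e1, smul_mk_ty g e2⟩
    rw [ty_smul, ty_smul]
    exact h1
  · obtain ⟨⟨h1, h2, h3⟩, a, e1, e2, e3⟩ := h
    refine ⟨?_, g * a, smul_mk_ty g e1, smul_mk_ty g e2, smul_mk_ty g e3⟩
    rw [ty_smul, ty_smul, ty_smul]
    exact ⟨h1, h2, h3⟩

theorem Par_mono {T T' : Typ M} (h : T.1 ⊆ T'.1) : Par M T ≤ Par M T' := by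
  refine Subgroup.closure_mono ?_
  rintro a ⟨s, hs, rfl⟩
  exact ⟨s, h hs, rfl⟩

theorem gen_mem {T : Typ M} {s : S} (h : some s ∈ T.1) : gen M s ∈ Par M T :=
  Subgroup.subset_closure ⟨s, h, rfl⟩

/-- Vertices of larger type determined by one element. -/
theorem mk_eq_of_le {T T' : Typ M} (h : T.1 ⊆ T'.1) {a b : ArtinGroup M}
    (hab : mk T a = mk T b) : mk T' a = mk T' b :=
  mk_eq.2 ⟨rfl, Par_mono h (mk_eq.1 hab).2⟩

theorem actsK : ActsK (ArtinGroup M) (cx M) rk where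
  acts := acts
  inv := rk_smul
  typ := by
    intro g x y hxy hxy' hk
    obtain ⟨h1, a, e1, e2⟩ := hxy
    obtain ⟨h1', b, e1', e2'⟩ := hxy'
    rw [ty_smul] at e2'
    have hsub : (ty x).1 ⊆ (ty y).1 := by
      rcases h1 with h | h
      · exact h.subset
      · have := Finset.card_lt_card h
        rw [rk_eq, rk_eq] at hk
        omega
    rw [e2', e2, ty_mk]
    refine mk_eq_of_le hsub ?_
    rw [← e1, ← e1']

end Pool.Agent.Helper26.LT
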