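import Pool.Agent.Helper26.LT.Cx

/-!
# The coset complex is a kite complex
-/

set_option autoImplicit false

namespace Pool.Agent.Helper26.LT

open Relation Pool.Agent.Helper29.BA Pool.Agent.Helper29.PA Pool.Agent.Helper3.FJ
  Pool.Agent.Helper13.LT

variable {S : Type} {M : CoxeterMatrix S}

variable (M) in
/-- The type of the chambers. -/
def ch : Typ M := ⟨∅, by simp, fun s t h => absurd h (Finset.notMem_empty _)⟩

variable (M) in
/-- The types of the panels. -/
def pt (s : Option S) : Typ M := ⟨{s}, by simp, fun a b ha hb => by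
  rw [Finset.mem_singleton] at ha hb
  have : a = b := Option.some.inj (ha.trans hb.symm)
  rw [this, M.diagonal]
  exact one_ne_zero⟩

theorem Par_ch : Par M (ch M) = ⊥ := by
  rw [eq_bot_iff]
  refine (Subgroup.closure_le _).2 ?_
  rintro a ⟨s, hs, -⟩
  exact absurd hs (Finset.notMem_empty _)

theorem Par_none : Par M (pt M none) = ⊥ := by
  rw [eq_bot_iff]
  refine (Subgroup.closure_le _).2 ?_
  rintro a ⟨s, hs, -⟩
  exact absurd (Finset.mem_singleton.1 hs) (by simp)

theorem Par_some (s : S) : Par M (pt M (some s)) = Subgroup.zpowers (gen M s) := by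
  rw [Subgroup.zpowers_eq_closure]
  unfold Par
  congr 1
  ext a
  constructor
  · rintro ⟨t, ht, rfl⟩
    rw [Option.some.inj (Finset.mem_singleton.1 ht)]
    rfl
  · rintro rfl
    exact ⟨s, Finset.mem_singleton_self _, rfl⟩

theorem ty_eq_ch {v : Vx M} (h : rk v = 0) : ty v = ch M := by
  refine Subtype.ext ?_
  rw [rk_eq] at h
  exact Finset.card_eq_zero.1 h

theorem ty_eq_pt {v : Vx M} (h : rk v = 1) : ∃ s, ty v = pt M s := by
  rw [rk_eq] at h
  obtain ⟨s, hs⟩ := Finset.card_eq_one.1 h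
  exact ⟨s, Subtype.ext hs⟩

theorem mk_ch {a b : ArtinGroup M} : mk (ch M) a = mk (ch M) b ↔ a = b := by
  rw [mk_eq, Par_ch, Subgroup.mem_bot, inv_mul_eq_one]
  simp

theorem kap_ne {u v : Vx M} : kap rk u ≠ kap rk v ↔ (rk u = 2 ∧ rk v ≠ 2) ∨ (rk u ≠ 2 ∧ rk v = 2) := by
  unfold kap
  by_cases h : rk u = 2 <;> by_cases h' : rk v = 2 <;> simp [h, h']

theorem kap_true {v : Vx M} : kap rk v = true ↔ rk v = 2 := by
  simp [kap]

theorem kap_false {v : Vx M} : kap rk v = false ↔ rk v ≠ 2 := by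
  simp [kap]

theorem rk_le (v : Vx M) : rk v ≤ 2 := by
  rw [rk_eq]
  exact (ty v).2.1

theorem inc_rk {p v : Vx M} (h : inc (cx M) rk p v) : rk v = 0 ∨ rk v = 2 := by
  have h1 := h.2.1.ne
  rw [← rk_eq, ← rk_eq, h.1] at h1
  have := rk_le v
  omega

theorem inc_ch {p v : Vx M} (h : inc (cx M) rk p v) (h2 : rk v ≠ 2) : ty v = ch M :=
  ty_eq_ch ((inc_rk h).resolve_right h2)

/-- A chamber on a panel. -/
theorem eq_of_inc {p v : Vx M} {a : ArtinGroup M} (h : inc (cx M) rk p v) (hv : v = mk (ch M) a) :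
    p = mk (ty p) a := by
  obtain ⟨-, -, b, e1, e2⟩ := h
  have h1 : ty v = ch M := by rw [hv, ty_mk]
  rw [h1, hv, mk_ch] at e2
  rw [e2]
  exact e1

/-- A residue on a panel. -/
theorem sub_of_inc {p v : Vx M} (h : inc (cx M) rk p v) (hv : rk v = 2) :
    (ty p).1 ⊆ (ty v).1 := by
  obtain ⟨h1, h2, -⟩ := h
  rcases h2 with h2 | h2
  · exact h2.subset
  · have := Finset.card_lt_card h2
    rw [← rk_eq, ← rk_eq] at this
    omega

theorem res_of_inc {p v : Vx M} {a : ArtinGroup M} (h : inc (cx M) rk p v) (hv : rk v = 2)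
    (hp : p = mk (ty p) a) : v = mk (ty v) a := by
  obtain ⟨b, e1, e2⟩ := h.2.2
  have h1 : mk (ty p) b = mk (ty p) a := by rw [← e1, ← hp]
  exact e2.trans (mk_eq_of_le (sub_of_inc h hv) h1)

/-- The type of `v` is `{s, t}`. -/
def Pr (v : Vx M) (s t : Option S) : Prop := ∀ w, w ∈ (ty v).1 ↔ w = s ∨ w = t

theorem Pr.symm {v : Vx M} {s t : Option S} (h : Pr v s t) : Pr v t s :=
  fun w => (h w).trans Or.comm

/-- Panels at a residue. -/
theorem ty_of_inc {p v : Vx M} (h : inc (cx M) rk p v) (hv : rk v = 2) {s t : Option S}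
    (hst : Pr v s t) : ty p = pt M s ∨ ty p = pt M t := by
  have h1 := sub_of_inc h hv
  obtain ⟨x, hx⟩ := ty_eq_pt h.1
  rw [hx] at h1
  rcases (hst x).1 (h1 (Finset.mem_singleton_self x)) with rfl | rfl
  · exact Or.inl hx
  · exact Or.inr hx

theorem exists_pair {v : Vx M} (hv : rk v = 2) : ∃ s t : Option S, s ≠ t ∧ Pr v s t := by
  classical
  rw [rk_eq] at hv
  obtain ⟨s, t, h, h'⟩ := Finset.card_eq_two.1 hv
  refine ⟨s, t, h, fun w => ?_⟩
  rw [h']
  simp

/-- Panels with a common chamber. -/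
theorem ty_ne {p q v : Vx M} (hp : inc (cx M) rk p v) (hq : inc (cx M) rk q v) (hv : rk v ≠ 2)
    (h : p ≠ q) : ty p ≠ ty q := by
  intro h1
  obtain ⟨T, a, e⟩ := exists_mk v
  have h2 := inc_ch hp hv
  rw [e, ty_mk] at h2
  rw [h2] at e
  refine h ?_
  rw [eq_of_inc hp e, eq_of_inc hq e, h1]

theorem exists_ch {p v : Vx M} (hp : inc (cx M) rk p v) (hv : rk v ≠ 2) :
    ∃ a, v = mk (ch M) a := by
  obtain ⟨T, a, e⟩ := exists_mk v
  have h2 := inc_ch hp hv
  rw [e, ty_mk] at h2
  rw [h2] at e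
  exact ⟨a, e⟩

theorem inc_mk_ch (s : Option S) (a : ArtinGroup M) :
    inc (cx M) rk (mk (pt M s) a) (mk (ch M) a) :=
  ⟨Finset.card_singleton _, adj_mk (Or.inr (Finset.ssubset_iff_subset_ne.2
    ⟨Finset.empty_subset _, (Finset.singleton_ne_empty s).symm⟩)) a⟩

theorem inc_mk_res {s : Option S} {T : Typ M} (hs : s ∈ T.1) (hT : T.1.card = 2)
    (a : ArtinGroup M) : inc (cx M) rk (mk (pt M s) a) (mk T a) := by
  refine ⟨Finset.card_singleton _, adj_mk (Or.inl (Finset.ssubset_iff_subset_ne.2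
    ⟨Finset.singleton_subset_iff.2 hs, fun h => ?_⟩)) a⟩
  rw [← h] at hT
  exact absurd hT (by rw [show (pt M s).1 = {s} from rfl, Finset.card_singleton]; omega)

/-- The pairs `{s, none}` are types. -/
theorem exists_typ [Nonempty S] (s : Option S) : ∃ T : Typ M, s ∈ T.1 ∧ T.1.card = 2 := by
  classical
  have key : ∀ x : S, ∃ T : Typ M, some x ∈ T.1 ∧ none ∈ T.1 ∧ T.1.card = 2 := by
    intro x
    refine ⟨⟨{some x, none}, ?_, ?_⟩, ?_, ?_, ?_⟩
    · rw [Finset.card_pair (by simp)]
    · intro a b ha hb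
      have ha' : a = x := by simpa using ha
      have hb' : b = x := by simpa using hb
      rw [ha', hb', M.diagonal]
      exact one_ne_zero
    · simp
    · simp
    · exact Finset.card_pair (by simp)
  cases s with
  | none =>
    obtain ⟨x⟩ := ‹Nonempty S›
    obtain ⟨T, h1, h2, h3⟩ := key x
    exact ⟨T, h2, h3⟩
  | some x =>
    obtain ⟨T, h1, h2, h3⟩ := key x
    exact ⟨T, h1, h3⟩

section

variable (h2 : ∀ s t, s ≠ t → ∀ a b : ℤ, gen M s ^ a = gen M t ^ b → a = 0)
  (h4 : ∀ s t, s ≠ t → M s t ≠ 0 → ∀ a b c d : ℤ,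
    gen M s ^ a * gen M t ^ b * gen M s ^ c * gen M t ^ d = 1 → a = 0 ∨ b = 0)

include h2 in
theorem par_inter {s t : Option S} (hst : s ≠ t) {u : ArtinGroup M} (hs : u ∈ Par M (pt M s))
    (ht : u ∈ Par M (pt M t)) : u = 1 := by
  cases s with
  | none =>
    rw [Par_none, Subgroup.mem_bot] at hs
    exact hs
  | some s =>
    cases t with
    | none =>
      rw [Par_none, Subgroup.mem_bot] at ht
      exact ht
    | some t =>
      rw [Par_some, Subgroup.mem_zpowers_iff] at hs ht
      obtain ⟨a, rfl⟩ := hs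
      obtain ⟨b, hb⟩ := ht
      rw [h2 s t (fun h => hst (by rw [h])) a b hb.symm, zpow_zero]

include h4 in
theorem par_four {s t : Option S} (hst : s ≠ t)
    (hM : ∀ x y, some x = s → some y = t → M x y ≠ 0)
    {u v w z : ArtinGroup M} (hu : u ∈ Par M (pt M s)) (hv : v ∈ Par M (pt M t))
    (hw : w ∈ Par M (pt M s)) (hz : z ∈ Par M (pt M t)) (h : u * v * w * z = 1) :
    u = 1 ∨ v = 1 := by
  cases s with
  | none =>
    rw [Par_none, Subgroup.mem_bot] at hu
    exact Or.inl hu
  | some s =>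
    cases t with
    | none =>
      rw [Par_none, Subgroup.mem_bot] at hv
      exact Or.inr hv
    | some t =>
      rw [Par_some, Subgroup.mem_zpowers_iff] at hu hv hw hz
      obtain ⟨a, rfl⟩ := hu
      obtain ⟨b, rfl⟩ := hv
      obtain ⟨c, rfl⟩ := hw
      obtain ⟨d, rfl⟩ := hz
      rcases h4 s t (fun h => hst (by rw [h])) (hM s t rfl rfl) a b c d h with h | h
      · exact Or.inl (by rw [h, zpow_zero])
      · exact Or.inr (by rw [h, zpow_zero])

theorem mem_of_inc {p : Vx M} {T : Typ M} {a b : ArtinGroup M} (hT : ty p = T)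
    (h1 : inc (cx M) rk p (mk (ch M) a)) (h2 : inc (cx M) rk p (mk (ch M) b)) :
    a⁻¹ * b ∈ Par M T := by
  have e1 := eq_of_inc h1 rfl
  have e2 := eq_of_inc h2 rfl
  rw [hT] at e1 e2
  exact (mk_eq.1 (e1.symm.trans e2)).2

include h2 h4

theorem kc [Nonempty S] : KC (inc (cx M) rk) (kap rk) where
  opp := by
    intro p v h
    by_cases hv : rk v = 2
    · obtain ⟨s, hs⟩ := ty_eq_pt h.1
      obtain ⟨T, a, e⟩ := exists_mk p
      rw [e, ty_mk] at hs
      rw [hs] at e
      refine ⟨mk (ch M) a, ?_, ?_⟩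
      · rw [e]
        exact inc_mk_ch s a
      · rw [kap_ne]
        exact Or.inr ⟨by rw [rk_mk]; exact (by decide : (0 : ℕ) ≠ 2), hv⟩
    · obtain ⟨a, e⟩ := exists_ch h hv
      obtain ⟨s, hs⟩ := ty_eq_pt h.1
      have e2 := eq_of_inc h e
      obtain ⟨T, hT, hT2⟩ := exists_typ (M := M) s
      refine ⟨mk T a, ?_, ?_⟩
      · rw [e2, hs]
        exact inc_mk_res hT hT2 a
      · rw [kap_ne]
        exact Or.inl ⟨hT2, hv⟩
  two := by
    have key : ∀ p u v, inc (cx M) rk p u → inc (cx M) rk p v → rk u ≠ 2 → rk v = 2 →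
        ∃ q, q ≠ p ∧ inc (cx M) rk q u ∧ inc (cx M) rk q v := by
      intro p u v hu hv hu2 hv2
      obtain ⟨a, e⟩ := exists_ch hu hu2
      have e2 := eq_of_inc hu e
      have e3 := res_of_inc hv hv2 e2
      obtain ⟨s, t, hst, hT⟩ := exists_pair hv2
      have hc : (ty v).1.card = 2 := by rw [← rk_eq]; exact hv2
      have hs : s ∈ (ty v).1 := (hT s).2 (Or.inl rfl)
      have ht : t ∈ (ty v).1 := (hT t).2 (Or.inr rfl)
      rcases ty_of_inc hv hv2 hT with h | h
      · refine ⟨mk (pt M t) a, fun h' => ?_, ?_, ?_⟩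
        · rw [← h', ty_mk] at h
          exact hst (Finset.singleton_injective (congrArg Subtype.val h)).symm
        · rw [e]
          exact inc_mk_ch t a
        · rw [e3]
          exact inc_mk_res ht hc a
      · refine ⟨mk (pt M s) a, fun h' => ?_, ?_, ?_⟩
        · rw [← h', ty_mk] at h
          exact hst (Finset.singleton_injective (congrArg Subtype.val h))
        · rw [e]
          exact inc_mk_ch s a
        · rw [e3]
          exact inc_mk_res hs hc a
    intro p u v hu hv h
    rcases kap_ne.1 h with ⟨h1, h1'⟩ | ⟨h1, h1'⟩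
    · obtain ⟨q, hq, h3, h5⟩ := key p v u hv hu h1' h1
      exact ⟨q, hq, h5, h3⟩
    · exact key p u v hu hv h1 h1'
  le_two := by
    have key : ∀ p q r u v, rk u ≠ 2 → rk v = 2 → inc (cx M) rk p u → inc (cx M) rk p v →
        inc (cx M) rk q u → inc (cx M) rk q v → inc (cx M) rk r u → inc (cx M) rk r v →
        p = q ∨ p = r ∨ q = r := by
      intro p q r u v hu2 hv2 hpu hpv hqu hqv hru hrv
      obtain ⟨a, e⟩ := exists_ch hpu hu2
      have e1 := eq_of_inc hpu e
      have e2 := eq_of_inc hqu e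
      have e3 := eq_of_inc hru e
      obtain ⟨s, t, hst, hT⟩ := exists_pair hv2
      have f1 : ty p = ty q → p = q := fun h => by rw [e1, e2, h]
      have f2 : ty p = ty r → p = r := fun h => by rw [e1, e3, h]
      have f3 : ty q = ty r → q = r := fun h => by rw [e2, e3, h]
      rcases ty_of_inc hpv hv2 hT with h1 | h1 <;> rcases ty_of_inc hqv hv2 hT with h2 | h2 <;>
        rcases ty_of_inc hrv hv2 hT with h3 | h3 <;>
        first
        | exact Or.inl (f1 (h1.trans h2.symm))
        | exact Or.inr (Or.inl (f2 (h1.trans h3.symm)))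
        | exact Or.inr (Or.inr (f3 (h2.trans h3.symm)))
    intro p q r u v h hpu hpv hqu hqv hru hrv
    rcases kap_ne.1 h with ⟨h1, h1'⟩ | ⟨h1, h1'⟩
    · exact key p q r v u h1' h1 hpv hpu hqv hqu hrv hru
    · exact key p q r u v h1 h1' hpu hpv hqu hqv hru hrv
  one := by
    intro p q v x y hpq hpv hqv hx hy hpx hqx hpy hqy
    by_cases hv : rk v = 2
    · have hx2 : rk x ≠ 2 := by
        rcases kap_ne.1 hx with ⟨-, h⟩ | ⟨h, -⟩
        · exact absurd hv h
        · exact h
      have hy2 : rk y ≠ 2 := by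
        rcases kap_ne.1 hy with ⟨-, h⟩ | ⟨h, -⟩
        · exact absurd hv h
        · exact h
      obtain ⟨a, rfl⟩ := exists_ch hpx hx2
      obtain ⟨b, rfl⟩ := exists_ch hpy hy2
      obtain ⟨s, hs⟩ := ty_eq_pt hpv.1
      obtain ⟨t, ht⟩ := ty_eq_pt hqv.1
      have h1 := ty_ne hpx hqx hx2 hpq
      have hst : s ≠ t := by
        rintro rfl
        exact h1 (hs.trans ht.symm)
      have h3 := par_inter h2 hst (mem_of_inc hs hpx hpy) (mem_of_inc ht hqx hqy)
      rw [inv_mul_eq_one] at h3
      rw [h3]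
    · have hx2 : rk x = 2 := by
        rcases kap_ne.1 hx with ⟨h, -⟩ | ⟨-, h⟩
        · exact h
        · exact absurd h hv
      have hy2 : rk y = 2 := by
        rcases kap_ne.1 hy with ⟨h, -⟩ | ⟨-, h⟩
        · exact h
        · exact absurd h hv
      obtain ⟨a, e⟩ := exists_ch hpv hv
      have e1 := eq_of_inc hpv e
      have ex := res_of_inc hpx hx2 e1
      have ey := res_of_inc hpy hy2 e1
      have h1 := ty_ne hpv hqv hv hpq
      obtain ⟨s, hs⟩ := ty_eq_pt hpv.1
      obtain ⟨t, ht⟩ := ty_eq_pt hqv.1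
      have hst : s ≠ t := by
        rintro rfl
        exact h1 (hs.trans ht.symm)
      have key : ∀ z, rk z = 2 → inc (cx M) rk p z → inc (cx M) rk q z →
          ∀ w, w ∈ (ty z).1 ↔ w = s ∨ w = t := by
        classical
        intro z hz hpz hqz w
        have h5 := sub_of_inc hpz hz
        have h6 := sub_of_inc hqz hz
        rw [hs] at h5
        rw [ht] at h6
        have h7 : ({s, t} : Finset (Option S)) ⊆ (ty z).1 := by
          intro w hw
          rw [Finset.mem_insert, Finset.mem_singleton] at hw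
          rcases hw with rfl | rfl
          · exact h5 (Finset.mem_singleton_self _)
          · exact h6 (Finset.mem_singleton_self _)
        have h8 : ({s, t} : Finset (Option S)) = (ty z).1 := by
          refine Finset.eq_of_subset_of_card_le h7 ?_
          rw [← rk_eq, hz, Finset.card_pair hst]
        rw [← h8]
        simp
      have h9 : ty x = ty y := by
        refine Subtype.ext (Finset.ext fun w => ?_)
        rw [key x hx2 hpx hqx w, key y hy2 hpy hqy w]
      rw [ex, ey, h9]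
  n3 := by
    intro r a b c x y z hr hx hy hz har hbr hcr hax hbx hby hcy hcz haz hab hbc hca
    rw [kap_true] at hr
    rw [kap_false] at hx hy hz
    obtain ⟨s, t, hst, hT⟩ := exists_pair hr
    have h1 := ty_ne hax hbx hx hab
    have h3 := ty_ne hby hcy hy hbc
    have h5 := ty_ne hcz haz hz hca
    rcases ty_of_inc har hr hT with ea | ea <;> rcases ty_of_inc hbr hr hT with eb | eb <;>
      rcases ty_of_inc hcr hr hT with ec | ec <;> rw [ea, eb] at h1 <;> rw [eb, ec] at h3 <;>
      rw [ec, ea] at h5 <;>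
      first
      | exact h1 rfl
      | exact h3 rfl
      | exact h5 rfl
  n4 := by
    have key : ∀ s t : Option S, s ≠ t → ∀ r a b c d x y z w, rk r = 2 → Pr r s t →
        rk x ≠ 2 → rk y ≠ 2 → rk z ≠ 2 → rk w ≠ 2 →
        inc (cx M) rk a r → inc (cx M) rk b r → inc (cx M) rk c r → inc (cx M) rk d r →
        inc (cx M) rk a x → inc (cx M) rk b x → inc (cx M) rk b y → inc (cx M) rk c y →
        inc (cx M) rk c z → inc (cx M) rk d z → inc (cx M) rk d w → inc (cx M) rk a w →
        a ≠ b → b ≠ c → c ≠ d → d ≠ a → ty b = pt M s → a = c ∨ b = d := by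
      intro s t hst r a b c d x y z w hr hT hx hy hz hw har hbr hcr hdr hax hbx hby hcy hcz hdz
        hdw haw hab hbc hcd hda eb
      have n1 := ty_ne hax hbx hx hab
      have n2 := ty_ne hby hcy hy hbc
      have n3 := ty_ne hcz hdz hz hcd
      have ea := (ty_of_inc har hr hT).resolve_left fun h => n1 (by rw [h, eb])
      have ec := (ty_of_inc hcr hr hT).resolve_left fun h => n2 (by rw [h, eb])
      have ed := (ty_of_inc hdr hr hT).resolve_right fun h => n3 (by rw [h, ec])
      obtain ⟨x, rfl⟩ := exists_ch hax hx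
      obtain ⟨y, rfl⟩ := exists_ch hby hy
      obtain ⟨z, rfl⟩ := exists_ch hcz hz
      obtain ⟨w, rfl⟩ := exists_ch hdw hw
      have hM : ∀ u v, some u = s → some v = t → M u v ≠ 0 := by
        intro u v hu hv
        exact (ty r).2.2 u v ((hT _).2 (Or.inl hu)) ((hT _).2 (Or.inr hv))
      rcases par_four h4 hst hM (mem_of_inc eb hbx hby) (mem_of_inc ec hcy hcz)
        (mem_of_inc ed hdz hdw) (mem_of_inc ea haw hax) (by group) with h | h
      · left
        by_contra hac
        rw [inv_mul_eq_one] at h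
        subst h
        exact ty_ne hax hcy hx hac (by rw [ea, ec])
      · right
        by_contra hbd
        rw [inv_mul_eq_one] at h
        subst h
        exact ty_ne hby hdz hy hbd (by rw [eb, ed])
    intro r a b c d x y z w hr hx hy hz hw har hbr hcr hdr hax hbx hby hcy hcz hdz hdw haw hab
      hbc hcd hda
    rw [kap_true] at hr
    rw [kap_false] at hx hy hz hw
    obtain ⟨s, t, hst, hT⟩ := exists_pair hr
    rcases ty_of_inc hbr hr hT with eb | eb
    · exact key s t hst r a b c d x y z w hr hT hx hy hz hw har hbr hcr hdr hax hbx hby hcy hcz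
        hdz hdw haw hab hbc hcd hda eb
    · exact key t s hst.symm r a b c d x y z w hr hT.symm hx hy hz
        hw har hbr hcr hdr hax hbx hby hcy hcz hdz hdw haw hab hbc hcd hda eb
  n5 := by
    intro r a b c d e x y z w v hr hx hy hz hw hv har hbr hcr hdr her hax hbx hby hcy hcz hdz hdw
      hew hev hav hab hbc hcd hde hea
    rw [kap_true] at hr
    rw [kap_false] at hx hy hz hw hv
    obtain ⟨s, t, hst, hT⟩ := exists_pair hr
    have n1 := ty_ne hax hbx hx hab
    have n2 := ty_ne hby hcy hy hbc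
    have n3 := ty_ne hcz hdz hz hcd
    have n4 := ty_ne hdw hew hw hde
    have n5 := ty_ne hev hav hv hea
    rcases ty_of_inc har hr hT with ea | ea <;> rcases ty_of_inc hbr hr hT with eb | eb <;>
      rcases ty_of_inc hcr hr hT with ec | ec <;> rcases ty_of_inc hdr hr hT with ed | ed <;>
      rcases ty_of_inc her hr hT with ee | ee <;> rw [ea, eb] at n1 <;> rw [eb, ec] at n2 <;>
      rw [ec, ed] at n3 <;> rw [ed, ee] at n4 <;> rw [ee, ea] at n5 <;>
      first
      | exact n1 rfl
      | exact n2 rfl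
      | exact n3 rfl
      | exact n4 rfl
      | exact n5 rfl

/-- The coset complex is a kite complex. -/
theorem kt [Nonempty S] : Kt (cx M) rk where
  le := rk_le
  ne := fun u v h => by
    rw [rk_eq, rk_eq]
    exact h.1.ne
  flag := by
    have key : ∀ p u v, inc (cx M) rk p u → inc (cx M) rk p v → rk u ≠ 2 → rk v = 2 →
        (cx M).tri p u v := by
      intro p u v hu hv hu2 hv2
      obtain ⟨a, e⟩ := exists_ch hu hu2
      have e2 := eq_of_inc hu e
      have e3 := res_of_inc hv hv2 e2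
      refine ⟨⟨hu.2.1, Or.inl ?_, hv.2.1.symm⟩, a, e2, mk_ty e, e3⟩
      rw [inc_ch hu hu2]
      refine Finset.ssubset_iff_subset_ne.2 ⟨Finset.empty_subset _, fun h => ?_⟩
      rw [rk_eq, ← h, show (ch M).1 = ∅ from rfl, Finset.card_empty] at hv2
      omega
    intro p u v hu hv huv
    have hu1 := inc_rk hu
    have hv1 := inc_rk hv
    rcases hu1 with hu1 | hu1
    · exact key p u v hu hv (by omega) (by omega)
    · exact (cx M).tri_flip _ _ _ ((cx M).tri_rot _ _ _ ((cx M).tri_rot _ _ _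
        (key p v u hv hu (by omega) (by omega))))
  diag := by
    have key : ∀ u v a, u = mk (ty u) a → v = mk (ty v) a → (ty u).1 ⊂ (ty v).1 → rk u ≠ 1 →
        rk v ≠ 1 → ∃ p, inc (cx M) rk p u ∧ inc (cx M) rk p v := by
      intro u v a e1 e2 h hu hv
      have h1 := Finset.card_lt_card h
      rw [← rk_eq, ← rk_eq] at h1
      have h3 := rk_le v
      have hu0 : rk u = 0 := by omega
      have hv2 : rk v = 2 := by omega
      obtain ⟨s, t, hst, hT⟩ := exists_pair hv2
      refine ⟨mk (pt M s) a, ?_, ?_⟩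
      · rw [e1, ty_eq_ch hu0]
        exact inc_mk_ch s a
      · rw [e2]
        exact inc_mk_res ((hT s).2 (Or.inl rfl)) (by rw [← rk_eq]; exact hv2) a
    intro u v h hu hv
    obtain ⟨h1, a, e1, e2⟩ := h
    rcases h1 with h1 | h1
    · exact key u v a e1 e2 h1 hu hv
    · obtain ⟨p, h5, h6⟩ := key v u a e2 e1 h1 hv hu
      exact ⟨p, h6, h5⟩
  kc := kc h2 h4

end

/-- The chambers have finitely many neighbours if there are finitely many generators. -/
theorem finite_adj [Finite S] (c : Vx M) (hc : rk c = 0) : {x | (cx M).adj c x}.Finite := by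
  classical
  have : Finite (Typ M) := by
    unfold Typ
    infer_instance
  obtain ⟨T, a, e⟩ := exists_mk c
  have h1 := ty_eq_ch hc
  rw [e, ty_mk] at h1
  rw [h1] at e
  refine (Set.finite_range fun T : Typ M => mk T a).subset ?_
  rintro x ⟨-, b, e1, e2⟩
  rw [e, ty_mk, mk_ch] at e1
  exact ⟨ty x, by rw [e1]; exact e2.symm⟩

theorem exists_chamber (p : Vx M) (hp : rk p = 1) : ∃ c, rk c = 0 ∧ (cx M).adj p c := by
  obtain ⟨s, hs⟩ := ty_eq_pt hp
  obtain ⟨T, a, e⟩ := exists_mk p
  rw [e, ty_mk] at hs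
  rw [hs] at e
  exact ⟨mk (ch M) a, rfl, by rw [e]; exact (inc_mk_ch s a).2⟩

end Pool.Agent.Helper26.LT
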