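import Pool.Agent.Helper26.LT.Kt

/-!
# The coset complex is simply connected
-/

set_option autoImplicit false

namespace Pool.Agent.Helper26.LT

open Relation Pool.Agent.Helper29.BA Pool.Agent.Helper29.PA Pool.Agent.Helper3.FJ
  Pool.Agent.Helper13.LT

theorem map_alt {G H : Type} [Group G] [Group H] (f : G →* H) (x y : G) (n : ℕ) :
    f (alt x y n) = alt (f x) (f y) n := by
  induction n generalizing x y with
  | zero => exact map_one f
  | succ n ih =>
    change f (x * alt y x n) = f x * alt (f y) (f x) n
    rw [map_mul, ih]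

theorem conj_alt {G : Type} [Group G] (d x y : G) (n : ℕ) :
    d * alt x y n * d⁻¹ = alt (d * x * d⁻¹) (d * y * d⁻¹) n := by
  induction n generalizing x y with
  | zero =>
    change d * 1 * d⁻¹ = 1
    rw [mul_one, mul_inv_cancel]
  | succ n ih =>
    change d * (x * alt y x n) * d⁻¹ = d * x * d⁻¹ * alt (d * y * d⁻¹) (d * x * d⁻¹) n
    rw [← ih]
    group

variable {S : Type} {M : CoxeterMatrix S}

/-- The relations of the Artin group. -/
theorem braid (s t : S) (h : M s t ≠ 0) :
    alt (gen M s) (gen M t) (M s t) = alt (gen M t) (gen M s) (M s t) := by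
  have h1 : (PresentedGroup.mk (artinRels M)) (alt (FreeGroup.of s) (FreeGroup.of t) (M s t) *
      (alt (FreeGroup.of t) (FreeGroup.of s) (M s t))⁻¹) = 1 :=
    PresentedGroup.one_of_mem ⟨s, t, h, rfl⟩
  rw [map_mul, map_inv, mul_inv_eq_one, map_alt, map_alt] at h1
  exact h1

theorem closure_gen : Subgroup.closure (Set.range (gen M)) = ⊤ :=
  PresentedGroup.closure_range_of _

/-- Induction over the elements of the Artin group. -/
theorem gen_induction {P : ArtinGroup M → Prop} (h1 : P 1) (hg : ∀ s, P (gen M s))
    (hm : ∀ a b, P a → P b → P (a * b)) (hi : ∀ a, P a → P a⁻¹) (a : ArtinGroup M) : P a := by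
  have h : a ∈ Subgroup.closure (Set.range (gen M)) := by
    rw [closure_gen]
    exact Subgroup.mem_top a
  induction h using Subgroup.closure_induction with
  | mem x hx =>
    obtain ⟨s, rfl⟩ := hx
    exact hg s
  | one => exact h1
  | mul x y _ _ hx hy => exact hm x y hx hy
  | inv x _ hx => exact hi x hx

theorem cmp_ch {T : Typ M} (h : T ≠ ch M) : Cmp (ch M) T :=
  Or.inl (Finset.ssubset_iff_subset_ne.2 ⟨Finset.empty_subset _, fun h' => h (Subtype.ext h'.symm)⟩)

theorem pt_ne_ch (s : Option S) : pt M s ≠ ch M := fun h =>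
  Finset.singleton_ne_empty s (congrArg Subtype.val h)

/-- A cell of three cosets. -/
theorem mk_mul {T : Typ M} {s : S} (h : some s ∈ T.1) (a : ArtinGroup M) :
    mk T (a * gen M s) = mk T a := by
  refine (mk_eq.2 ⟨rfl, ?_⟩).symm
  rw [inv_mul_cancel_left]
  exact gen_mem h

/-! ### Connectedness -/

theorem reach_symm {u v : Vx M} (h : ReflTransGen (cx M).adj u v) :
    ReflTransGen (cx M).adj v u := by
  induction h with
  | refl => exact ReflTransGen.refl
  | tail _ h ih => exact (ReflTransGen.single ((cx M).adj_symm _ _ h)).trans ih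

theorem reach (x a : ArtinGroup M) :
    ReflTransGen (cx M).adj (mk (ch M) x) (mk (ch M) (x * a)) := by
  induction a using gen_induction generalizing x with
  | h1 => rw [mul_one]
  | hg s =>
    have h1 : (cx M).adj (mk (ch M) x) (mk (pt M (some s)) x) := adj_mk (cmp_ch (pt_ne_ch _)) x
    have h2 : (cx M).adj (mk (pt M (some s)) x) (mk (ch M) (x * gen M s)) := by
      rw [← mk_mul (show some s ∈ (pt M (some s)).1 from Finset.mem_singleton_self _) x]
      exact adj_mk (cmp_ch (pt_ne_ch _)).symm _
    exact (ReflTransGen.single h1).tail h2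
  | hm a b ha hb =>
    have := (ha x).trans (hb (x * a))
    rwa [mul_assoc] at this
  | hi a ha =>
    have := ha (x * a⁻¹)
    rw [inv_mul_cancel_right] at this
    exact reach_symm this

theorem conn (u v : Vx M) : ReflTransGen (cx M).adj u v := by
  have key : ∀ w : Vx M, ReflTransGen (cx M).adj (mk (ch M) 1) w := by
    intro w
    obtain ⟨T, a, rfl⟩ := exists_mk w
    have h1 := reach (M := M) 1 a
    rw [one_mul] at h1
    by_cases hT : T = ch M
    · rw [hT]
      exact h1
    · exact h1.tail (adj_mk (cmp_ch hT) a)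
  exact (reach_symm (key u)).trans (key v)

/-! ### Cocycles -/

section

variable {H : Type} [Group H] {c : Vx M → Vx M → H} (hc : (cx M).Cocycle c)

variable (M H) in
/-- Translations of functions. -/
def tr : ArtinGroup M →* MulAut (ArtinGroup M → H) where
  toFun g :=
    { toFun := fun f x => f (x * g)
      invFun := fun f x => f (x * g⁻¹)
      left_inv := fun f => by ext x; simp
      right_inv := fun f => by ext x; simp
      map_mul' := fun f f' => rfl }
  map_one' := by ext f x; simp
  map_mul' g h := by ext f x; simp [mul_assoc]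

variable (c) in
/-- The cocycle along the edge from the chamber `x` to the coset of `x`. -/
def dd (T : Typ M) (x : ArtinGroup M) : H := c (mk (ch M) x) (mk T x)

variable (c) in
/-- The step in the direction of `s`. -/
def ee (s : S) (x : ArtinGroup M) : H := dd c (pt M (some s)) x * (dd c (pt M (some s)) (x * gen M s))⁻¹

include hc in
theorem ee_eq {T : Typ M} {s : S} (h : some s ∈ T.1) (x : ArtinGroup M) :
    ee c s x = dd c T x * (dd c T (x * gen M s))⁻¹ := by
  by_cases hT : pt M (some s) = T
  · rw [← hT]
    rfl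
  have h1 : Cmp (pt M (some s)) T := Or.inl (Finset.ssubset_iff_subset_ne.2
    ⟨Finset.singleton_subset_iff.2 h, fun h' => hT (Subtype.ext h')⟩)
  have hT0 : T ≠ ch M := by
    rintro rfl
    exact Finset.notMem_empty _ h
  have key : ∀ y, mk T y = mk T x → mk (pt M (some s)) y = mk (pt M (some s)) x →
      dd c T y = dd c (pt M (some s)) y * c (mk (pt M (some s)) x) (mk T x) := by
    intro y e1 e2
    have h3 := hc.2 _ _ _ (tri_mk (cmp_ch (pt_ne_ch (some s))) h1 (cmp_ch hT0).symm y)
    have h4 := hc.1 _ _ (adj_mk (cmp_ch hT0) y)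
    rw [← eq_inv_iff_mul_eq_one] at h3
    rw [← eq_inv_iff_mul_eq_one] at h4
    unfold dd
    rw [h4, ← h3, e1, e2]
  have e1 := mk_mul h x
  have e2 := mk_mul (show some s ∈ (pt M (some s)).1 from Finset.mem_singleton_self _) x
  rw [key x rfl rfl, key (x * gen M s) e1 e2]
  unfold ee
  group

include hc in
theorem ee_conj {T : Typ M} {s : S} (h : some s ∈ T.1) :
    (⟨ee c s, gen M s⟩ : (ArtinGroup M → H) ⋊[tr M H] ArtinGroup M) =
      SemidirectProduct.inl (dd c T) * SemidirectProduct.inr (gen M s) *
        (SemidirectProduct.inl (dd c T))⁻¹ := by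
  refine SemidirectProduct.ext ?_ ?_
  · funext x
    rw [show (SemidirectProduct.mk (ee c s) (gen M s) :
      (ArtinGroup M → H) ⋊[tr M H] ArtinGroup M).left = ee c s from rfl, ee_eq hc h x, ← map_inv]
    simp only [SemidirectProduct.mul_left, SemidirectProduct.mul_right, SemidirectProduct.left_inl,
      SemidirectProduct.right_inl, SemidirectProduct.left_inr, SemidirectProduct.right_inr,
      map_one, mul_one, one_mul]
    rfl
  · simp

include hc in
theorem exists_lift : ∃ E : ArtinGroup M →* (ArtinGroup M → H) ⋊[tr M H] ArtinGroup M,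
    ∀ s, E (gen M s) = ⟨ee c s, gen M s⟩ := by
  classical
  have h : ∀ r ∈ artinRels M, FreeGroup.lift (fun s =>
      (⟨ee c s, gen M s⟩ : (ArtinGroup M → H) ⋊[tr M H] ArtinGroup M)) r = 1 := by
    rintro r ⟨s, t, hst, rfl⟩
    rw [map_mul, map_inv, mul_inv_eq_one, map_alt, map_alt, FreeGroup.lift_apply_of,
      FreeGroup.lift_apply_of]
    have hT : ({some s, some t} : Finset (Option S)).card ≤ 2 := Finset.card_le_two
    let T : Typ M := ⟨{some s, some t}, hT, fun a b ha hb => by
      rw [Finset.mem_insert, Finset.mem_singleton, Option.some_inj, Option.some_inj] at ha hb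
      rcases ha with rfl | rfl <;> rcases hb with rfl | rfl
      · rw [M.diagonal]; exact one_ne_zero
      · exact hst
      · rw [M.symmetric]; exact hst
      · rw [M.diagonal]; exact one_ne_zero⟩
    have hs : some s ∈ T.1 := Finset.mem_insert_self _ _
    have ht : some t ∈ T.1 := Finset.mem_insert_of_mem (Finset.mem_singleton_self _)
    rw [ee_conj hc hs, ee_conj hc ht, ← conj_alt, ← conj_alt, ← map_alt, ← map_alt, braid s t hst]
  exact ⟨PresentedGroup.toGroup h, fun s => PresentedGroup.toGroup.of h⟩

include hc in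
theorem exists_pot : ∃ f : ArtinGroup M → H, ∀ x s, f (x * gen M s) = f x * ee c s x := by
  obtain ⟨E, hE⟩ := exists_lift hc
  have hr : ∀ g, (E g).right = g := by
    intro g
    induction g using gen_induction with
    | h1 => rw [map_one]; rfl
    | hg s => rw [hE]
    | hm a b ha hb => rw [map_mul, SemidirectProduct.mul_right, ha, hb]
    | hi a ha => rw [map_inv, SemidirectProduct.inv_right, ha]
  refine ⟨fun x => (E x).left 1, fun x s => ?_⟩
  change (E (x * gen M s)).left 1 = (E x).left 1 * ee c s x
  rw [map_mul, SemidirectProduct.mul_left, hr, hE]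
  change (E x).left 1 * ee c s (1 * x) = _
  rw [one_mul]

include hc in
theorem pot_par {f : ArtinGroup M → H} (hf : ∀ x s, f (x * gen M s) = f x * ee c s x) {T : Typ M}
    {a : ArtinGroup M} (ha : a ∈ Par M T) (x : ArtinGroup M) :
    f (x * a) * dd c T (x * a) = f x * dd c T x := by
  induction ha using Subgroup.closure_induction generalizing x with
  | mem a h =>
    obtain ⟨s, hs, rfl⟩ := h
    rw [hf, ee_eq hc hs]
    group
  | one => rw [mul_one]
  | mul a b _ _ ha hb => rw [← mul_assoc, hb, ha]
  | inv a _ ha =>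
    have := ha (x * a⁻¹)
    rw [inv_mul_cancel_right] at this
    exact this.symm

end

/-- **The coset complex is simply connected.** -/
theorem cx_simplyConn : (cx M).SimplyConn := by
  classical
  refine ⟨⟨mk (ch M) 1⟩, conn, fun H _ c hc => ?_⟩
  obtain ⟨f, hf⟩ := exists_pot hc
  choose! T a hTa using fun v : Vx M => exists_mk v
  let g : Vx M → H := fun v => f (a v) * if T v = ch M then 1 else dd c (T v) (a v)
  have hg : ∀ (U : Typ M) (b : ArtinGroup M), g (mk U b) = f b * if U = ch M then 1 else dd c U b := by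
    intro U b
    obtain ⟨h1, h2⟩ := mk_eq.1 (hTa (mk U b))
    change f (a (mk U b)) * (if T (mk U b) = ch M then 1 else dd c (T (mk U b)) (a (mk U b))) = _
    rw [← h1]
    by_cases hU : U = ch M
    · rw [if_pos hU, if_pos hU]
      have h3 : b = a (mk U b) := by
        rw [hU] at h2 ⊢
        rwa [Par_ch, Subgroup.mem_bot, inv_mul_eq_one] at h2
      rw [← h3]
    · rw [if_neg hU, if_neg hU]
      have := pot_par hc hf h2 b
      rwa [mul_inv_cancel_left] at this
  refine ⟨g, fun u v huv => ?_⟩
  obtain ⟨h1, b, e1, e2⟩ := huv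
  rw [e1, e2, hg, hg]
  by_cases hu : ty u = ch M
  · have hv : ty v ≠ ch M := by
      intro hv
      rw [hu, hv] at h1
      exact h1.ne rfl
    rw [if_pos hu, if_neg hv, hu]
    unfold dd
    group
  · by_cases hv : ty v = ch M
    · rw [if_pos hv, if_neg hu, hv]
      have h4 := hc.1 _ _ (adj_mk (cmp_ch hu).symm b)
      rw [mul_eq_one_iff_eq_inv] at h4
      rw [h4]
      unfold dd
      group
    · rw [if_neg hu, if_neg hv]
      have h3 := hc.2 _ _ _ (tri_mk (cmp_ch hu) h1 (cmp_ch hv).symm b)
      have h4 := hc.1 _ _ (adj_mk (cmp_ch hv) b)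
      rw [← eq_inv_iff_mul_eq_one] at h3
      rw [← eq_inv_iff_mul_eq_one] at h4
      unfold dd
      rw [h4, ← h3]
      group

end Pool.Agent.Helper26.LT
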